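import Mathlib

set_option autoImplicit false

/-!
Free groups are conjugacy separable (explicit rewriting proof, package B of row 1365).
-/

namespace Pool.Agent.H62FC

open RegularWreathProduct

universe u

/-- functoriality of the wreath product in the base -/
def mapW {D D' Q : Type*} [Group D] [Group D'] [Group Q] (f : D →* D') : D ≀ᵣ Q →* D' ≀ᵣ Q where
  toFun a := ⟨fun i => f (a.left i), a.right⟩
  map_one' := by ext <;> simp
  map_mul' a b := by ext <;> simp

abbrev C (m : ℕ) := Multiplicative (ZMod m)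

section rewriting

variable {X : Type u} {m : ℕ} (x0 : X) (φ : X → C m)

open Classical in
/-- the rewriting homomorphism -/
noncomputable def Phi : FreeGroup X →* (FreeGroup (X × C m)) ≀ᵣ (C m) :=
  FreeGroup.lift fun x => ⟨fun i => if x = x0 ∧ i ≠ 1 then 1 else FreeGroup.of (x, i), φ x⟩

/-- the transversal -/
def s (i : C m) : FreeGroup X := (FreeGroup.of x0)⁻¹ ^ (i.toAdd.val)

noncomputable def rho : FreeGroup (X × C m) →* FreeGroup X :=
  FreeGroup.lift fun xi => s x0 xi.2 * FreeGroup.of xi.1 * (s x0 ((φ xi.1)⁻¹ * xi.2))⁻¹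

noncomputable def Sec : FreeGroup X →* (FreeGroup X) ≀ᵣ (C m) where
  toFun w := ⟨fun i => s x0 i * w * (s x0 ((FreeGroup.lift φ w)⁻¹ * i))⁻¹, FreeGroup.lift φ w⟩
  map_one' := by
    ext i
    · simp
    · simp
  map_mul' a b := by
    ext i
    · simp [mul_assoc]
    · simp

lemma Phi_right (w : FreeGroup X) : (Phi x0 φ w).right = FreeGroup.lift φ w := by
  have : (rightHom.comp (Phi x0 φ)) = FreeGroup.lift φ := by
    ext x
    simp [Phi]
  exact DFunLike.congr_fun this w

variable [Fact (1 < m)]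

lemma s_step (i : C m) (hi : i ≠ 1) :
    s x0 i * FreeGroup.of x0 * (s x0 ((Multiplicative.ofAdd (1 : ZMod m))⁻¹ * i))⁻¹ = 1 := by
  have : NeZero m := ⟨by have := (Fact.out : 1 < m); omega⟩
  have h1 : i.toAdd ≠ 0 := fun h => hi h
  have h2 : ((Multiplicative.ofAdd (1 : ZMod m))⁻¹ * i).toAdd = i.toAdd - 1 := by
    simp [sub_eq_neg_add]
  have h3 : (i.toAdd - 1).val + 1 = i.toAdd.val := by
    have h4 : 0 < i.toAdd.val := Nat.pos_of_ne_zero fun h => h1 ((ZMod.val_eq_zero _).1 h)
    have h5 : (1 : ZMod m).val = 1 := ZMod.val_one m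
    have h6 : (i.toAdd - 1).val = i.toAdd.val - (1 : ZMod m).val :=
      ZMod.val_sub (by rw [h5]; omega)
    rw [h6, h5]; omega
  unfold s
  rw [h2, ← h3, pow_succ]
  group

lemma rho_Phi (hx0 : φ x0 = Multiplicative.ofAdd 1) :
    (mapW (rho x0 φ)).comp (Phi x0 φ) = Sec x0 φ := by
  classical
  ext x i
  · by_cases h : x = x0 ∧ i ≠ 1
    · have := s_step x0 i h.2
      obtain ⟨rfl, h2⟩ := h
      simp only [Phi, mapW, Sec, MonoidHom.comp_apply, MonoidHom.coe_mk, OneHom.coe_mk,
        FreeGroup.lift_apply_of, hx0]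
      rw [if_pos ⟨trivial, h2⟩, map_one, this]
    · simp only [Phi, mapW, Sec, MonoidHom.comp_apply, MonoidHom.coe_mk, OneHom.coe_mk,
        FreeGroup.lift_apply_of]
      rw [if_neg h]
      simp [rho]
  · simp [Phi, mapW, Sec]

lemma rho_left (hx0 : φ x0 = Multiplicative.ofAdd 1) (w : FreeGroup X) (i : C m) :
    rho x0 φ ((Phi x0 φ w).left i) = s x0 i * w * (s x0 ((FreeGroup.lift φ w)⁻¹ * i))⁻¹ := by
  have := congrArg (fun a => a.left i) (DFunLike.congr_fun (rho_Phi x0 φ hx0) w)
  exact this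

lemma conj_of {u v : FreeGroup X} (hx0 : φ x0 = Multiplicative.ofAdd 1)
    (hu : FreeGroup.lift φ u = 1) (hv : FreeGroup.lift φ v = 1) {i j : C m}
    (h : IsConj ((Phi x0 φ u).left i) ((Phi x0 φ v).left j)) : IsConj u v := by
  have h1 := (rho x0 φ).map_isConj h
  rw [rho_left x0 φ hx0, rho_left x0 φ hx0, hu, hv, inv_one, one_mul, one_mul] at h1
  have h2 : IsConj u (s x0 i * u * (s x0 i)⁻¹) := isConj_iff.2 ⟨_, rfl⟩
  have h3 : IsConj (s x0 j * v * (s x0 j)⁻¹) v :=
    (isConj_iff.2 ⟨_, rfl⟩ : IsConj v (s x0 j * v * (s x0 j)⁻¹)).symm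
  exact (h2.trans h1).trans h3

open scoped Classical in
lemma norm_single (a : X × Bool) (i : C m) :
    ((Phi x0 φ (FreeGroup.mk [a])).left i).norm ≤ 1 := by
  classical
  obtain ⟨x, b⟩ := a
  cases b
  · have e : (FreeGroup.mk [(x, false)] : FreeGroup X) = (FreeGroup.of x)⁻¹ := rfl
    rw [e, map_inv]
    simp only [Phi, FreeGroup.lift_apply_of, inv_left, Pi.inv_apply]
    split_ifs <;> simp
  · have e : (FreeGroup.mk [(x, true)] : FreeGroup X) = FreeGroup.of x := rfl
    rw [e]
    simp only [Phi, FreeGroup.lift_apply_of]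
    split_ifs <;> simp

lemma left_mul (a b : FreeGroup X) (i : C m) :
    (Phi x0 φ (a * b)).left i = (Phi x0 φ a).left i *
      (Phi x0 φ b).left ((FreeGroup.lift φ a)⁻¹ * i) := by
  rw [map_mul, mul_left, Pi.mul_apply, Phi_right]

open scoped Classical in
lemma norm_le (L : List (X × Bool)) (i : C m) :
    ((Phi x0 φ (FreeGroup.mk L)).left i).norm ≤ L.length := by
  classical
  induction L generalizing i with
  | nil =>
    have e : (FreeGroup.mk [] : FreeGroup X) = 1 := rfl
    rw [e, map_one]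
    simp
  | cons a L ih =>
    have e : (FreeGroup.mk (a :: L) : FreeGroup X) = FreeGroup.mk [a] * FreeGroup.mk L := rfl
    rw [e, left_mul]
    refine (FreeGroup.norm_mul_le _ _).trans ?_
    have h1 := norm_single x0 φ a i
    have h2 := ih ((FreeGroup.lift φ (FreeGroup.mk [a]))⁻¹ * i)
    simp only [List.length_cons]
    omega

open scoped Classical in
lemma exists_lt (hx0 : φ x0 = Multiplicative.ofAdd 1) (L : List (X × Bool)) (b : Bool)
    (hb : (x0, b) ∈ L) :
    ∃ i : C m, ((Phi x0 φ (FreeGroup.mk L)).left i).norm < L.length := by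
  classical
  obtain ⟨L1, L2, rfl⟩ := List.append_of_mem hb
  have hne : (Multiplicative.ofAdd (1 : ZMod m)) ≠ 1 := by
    have : NeZero m := ⟨by have := (Fact.out : 1 < m); omega⟩
    intro h
    have h2 : (1 : ZMod m) = 0 := h
    have h3 := ZMod.val_one m
    rw [h2, ZMod.val_zero] at h3
    omega
  have hk : ∃ k : C m, (Phi x0 φ (FreeGroup.mk [(x0, b)])).left k = 1 := by
    cases b
    · refine ⟨1, ?_⟩
      have e : (FreeGroup.mk [(x0, false)] : FreeGroup X) = (FreeGroup.of x0)⁻¹ := rfl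
      rw [e, map_inv]
      simp only [Phi, FreeGroup.lift_apply_of, inv_left, Pi.inv_apply, hx0, mul_one]
      rw [if_pos ⟨trivial, hne⟩, inv_one]
    · refine ⟨Multiplicative.ofAdd 1, ?_⟩
      have e : (FreeGroup.mk [(x0, true)] : FreeGroup X) = FreeGroup.of x0 := rfl
      rw [e]
      simp only [Phi, FreeGroup.lift_apply_of]
      rw [if_pos ⟨trivial, hne⟩]
  obtain ⟨k, hk⟩ := hk
  refine ⟨FreeGroup.lift φ (FreeGroup.mk L1) * k, ?_⟩
  have e : (FreeGroup.mk (L1 ++ (x0, b) :: L2) : FreeGroup X) =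
      FreeGroup.mk L1 * (FreeGroup.mk [(x0, b)] * FreeGroup.mk L2) := rfl
  rw [e, left_mul, left_mul, inv_mul_cancel_left, hk, one_mul]
  refine lt_of_le_of_lt (FreeGroup.norm_mul_le _ _) ?_
  have h1 := norm_le x0 φ L1 (FreeGroup.lift φ (FreeGroup.mk L1) * k)
  have h2 := norm_le x0 φ L2 ((FreeGroup.lift φ (FreeGroup.mk [(x0, b)]))⁻¹ * k)
  simp only [List.length_append, List.length_cons]
  omega

/-- the finite quotient -/
lemma step {u v : FreeGroup X}
    (hu : FreeGroup.lift φ u = 1) (hv : FreeGroup.lift φ v = 1) (i0 : C m)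
    (hsep : ∀ j : C m, ∃ (Q : Type) (_ : Group Q) (_ : Finite Q)
      (ψ : FreeGroup (X × C m) →* Q), ¬ IsConj (ψ ((Phi x0 φ u).left i0))
        (ψ ((Phi x0 φ v).left j))) :
    ∃ (Q : Type) (_ : Group Q) (_ : Finite Q) (ψ : FreeGroup X →* Q),
      ¬ IsConj (ψ u) (ψ v) := by
  have hm : NeZero m := ⟨by have := (Fact.out : 1 < m); omega⟩
  choose Q iQ fQ ψ hψ using hsep
  have : Finite (ZMod m) := inferInstance
  have : Finite (C m) := this
  let ψ' : FreeGroup (X × C m) →* (∀ j, Q j) := MonoidHom.pi ψ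
  refine ⟨(∀ j, Q j) ≀ᵣ (C m), inferInstance, inferInstance, (mapW ψ').comp (Phi x0 φ), ?_⟩
  intro hc
  obtain ⟨g, hg⟩ := isConj_iff.1 hc
  have hg' := eq_mul_of_mul_inv_eq hg
  have h1 := congrFun (congrArg RegularWreathProduct.left hg') (g.right * i0)
  have hru : (((mapW ψ').comp (Phi x0 φ)) u).right = 1 := by
    show (Phi x0 φ u).right = 1
    rw [Phi_right, hu]
  have hrv : (((mapW ψ').comp (Phi x0 φ)) v).right = 1 := by
    show (Phi x0 φ v).right = 1
    rw [Phi_right, hv]
  rw [mul_left, mul_left, Pi.mul_apply, Pi.mul_apply, hrv, inv_one, one_mul,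
    inv_mul_cancel_left] at h1
  apply hψ (g.right * i0)
  refine isConj_iff.2 ⟨g.left (g.right * i0) (g.right * i0), ?_⟩
  have h2 := congrFun h1 (g.right * i0)
  rw [Pi.mul_apply, Pi.mul_apply] at h2
  exact mul_inv_eq_of_eq_mul h2

end rewriting

section choice

variable {X : Type u}

open Classical in
/-- the exponent sum of `x` -/
noncomputable def ex (x : X) : FreeGroup X →* Multiplicative ℤ :=
  FreeGroup.lift fun y => if y = x then Multiplicative.ofAdd 1 else 1

lemma one_letter (x : X) (L : List (X × Bool)) (h : ∀ a ∈ L, a.1 = x) :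
    FreeGroup.mk L = FreeGroup.of x ^ (ex x (FreeGroup.mk L)).toAdd := by
  induction L with
  | nil =>
    have e : (FreeGroup.mk [] : FreeGroup X) = 1 := rfl
    rw [e, map_one]
    simp
  | cons a L ih =>
    obtain ⟨y, b⟩ := a
    have hy : y = x := h (y, b) (by simp)
    subst hy
    have ih' := ih (fun a ha => h a (by simp [ha]))
    have e : (FreeGroup.mk ((y, b) :: L) : FreeGroup X) =
      FreeGroup.mk [(y, b)] * FreeGroup.mk L := rfl
    cases b
    · have e1 : (FreeGroup.mk [(y, false)] : FreeGroup X) = (FreeGroup.of y)⁻¹ := rfl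
      have e2 : ex y (FreeGroup.of y) = Multiplicative.ofAdd 1 := by simp [ex]
      rw [e, map_mul, e1, map_inv, e2, toAdd_mul, zpow_add, ← ih']
      simp
    · have e1 : (FreeGroup.mk [(y, true)] : FreeGroup X) = FreeGroup.of y := rfl
      have e2 : ex y (FreeGroup.of y) = Multiplicative.ofAdd 1 := by simp [ex]
      rw [e, map_mul, e1, e2, toAdd_mul, zpow_add, ← ih']
      simp

/-- different exponent sums -/
lemma sep_ex (x : X) (u v : FreeGroup X) (h : ex x u ≠ ex x v) :
    ∃ (Q : Type) (_ : Group Q) (_ : Finite Q) (ψ : FreeGroup X →* Q),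
      ¬ IsConj (ψ u) (ψ v) := by
  set a := (ex x u).toAdd with ha
  set b := (ex x v).toAdd with hb
  have hab : a ≠ b := fun h' => h (Multiplicative.toAdd.injective h')
  let M : ℕ := (a - b).natAbs + 1
  have : NeZero M := ⟨by omega⟩
  have : Finite (ZMod M) := inferInstance
  have : Finite (Multiplicative (ZMod M)) := this
  refine ⟨Multiplicative (ZMod M), inferInstance, this,
    (AddMonoidHom.toMultiplicative (Int.castAddHom (ZMod M))).comp (ex x), ?_⟩
  rw [isConj_iff_eq]
  intro hc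
  have h1 : ((a : ℤ) : ZMod M) = ((b : ℤ) : ZMod M) := hc
  rw [ZMod.intCast_eq_intCast_iff_dvd_sub] at h1
  have h2 : ((a - b).natAbs + 1 : ℕ) ∣ (b - a).natAbs := Int.natCast_dvd.1 h1
  have h3 : (b - a).natAbs = (a - b).natAbs := by omega
  rw [h3] at h2
  have h4 : 0 < (a - b).natAbs := by omega
  have h5 := Nat.le_of_dvd h4 h2
  omega

open Classical in
/-- the indicator of `x` with values in the cyclic group -/
noncomputable def ind (m : ℕ) (x : X) : X → C m :=
  fun y => if y = x then Multiplicative.ofAdd 1 else 1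

lemma lift_ind (m : ℕ) (x : X) (w : FreeGroup X) :
    FreeGroup.lift (ind m x) w = Multiplicative.ofAdd (((ex x w).toAdd : ℤ) : ZMod m) := by
  classical
  have : FreeGroup.lift (ind m x) =
      (AddMonoidHom.toMultiplicative (Int.castAddHom (ZMod m))).comp (ex x) := by
    ext y
    by_cases h : y = x
    · simp [ind, ex, h]
    · simp [ind, ex, h]
  rw [this]
  rfl

lemma lift_ind2 (m : ℕ) (x y : X) (w : FreeGroup X) :
    FreeGroup.lift (fun z => ind m x z * ind m y z) w =
      FreeGroup.lift (ind m x) w * FreeGroup.lift (ind m y) w := by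
  have : FreeGroup.lift (fun z => ind m x z * ind m y z) =
      FreeGroup.lift (ind m x) * FreeGroup.lift (ind m y) := by
    ext z
    simp
  rw [this]
  rfl

open scoped Classical in
lemma choice (u v : FreeGroup X) (he : ∀ x, ex x u = ex x v) (hne : u ≠ v) :
    ∃ (m : ℕ) (_ : Fact (1 < m)) (x0 : X) (φ : X → C m) (b : Bool),
      φ x0 = Multiplicative.ofAdd 1 ∧ FreeGroup.lift φ u = 1 ∧ FreeGroup.lift φ v = 1 ∧
      ((x0, b) ∈ u.toWord ∨ (x0, b) ∈ v.toWord) := by
  by_cases h1 : ∃ x b, ((x, b) ∈ u.toWord ∨ (x, b) ∈ v.toWord) ∧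
      (ex x u).toAdd.natAbs ≠ 1
  · obtain ⟨x, b, hb, hn⟩ := h1
    obtain ⟨m, hm1, hm2⟩ : ∃ m : ℕ, 1 < m ∧ (m : ℤ) ∣ (ex x u).toAdd := by
      by_cases h0 : (ex x u).toAdd.natAbs = 0
      · exact ⟨2, by norm_num, by
          rw [Int.natAbs_eq_zero.1 h0]; exact dvd_zero _⟩
      · exact ⟨(ex x u).toAdd.natAbs, by omega, Int.natAbs_dvd.2 dvd_rfl⟩
    have hu : FreeGroup.lift (ind m x) u = 1 := by
      rw [lift_ind, (ZMod.intCast_zmod_eq_zero_iff_dvd _ _).2 hm2]
      rfl
    refine ⟨m, ⟨hm1⟩, x, ind m x, b, by simp [ind], hu, ?_, hb⟩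
    rw [lift_ind, ← he x, ← lift_ind, hu]
  · push Not at h1
    by_cases h2 : ∃ x y b c, x ≠ y ∧ ((x, b) ∈ u.toWord ∨ (x, b) ∈ v.toWord) ∧
      ((y, c) ∈ u.toWord ∨ (y, c) ∈ v.toWord)
    · obtain ⟨x, y, b, c, hxy, hx, hy⟩ := h2
      have ex1 := h1 x b hx
      have ey1 := h1 y c hy
      have key : ∀ n : ℤ, n.natAbs = 1 → ((n : ℤ) : ZMod 2) = 1 := by
        intro n hn
        rcases Int.natAbs_eq n with h | h
        · rw [h, hn]; rfl
        · rw [h, hn]; rfl
      have hu : FreeGroup.lift (fun z => ind 2 x z * ind 2 y z) u = 1 := by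
        rw [lift_ind2, lift_ind, lift_ind, key _ ex1, key _ ey1]
        rfl
      refine ⟨2, ⟨by norm_num⟩, x, fun z => ind 2 x z * ind 2 y z, b, ?_, hu, ?_, hx⟩
      · simp [ind, hxy]
      · rw [lift_ind2, lift_ind, lift_ind, ← he x, ← he y, ← lift_ind, ← lift_ind, ← lift_ind2, hu]
    · push Not at h2
      exfalso
      apply hne
      by_cases h3 : ∃ x b, (x, b) ∈ u.toWord ∨ (x, b) ∈ v.toWord
      · obtain ⟨x, b, hx⟩ := h3
        have hu : ∀ a ∈ u.toWord, a.1 = x := by
          intro a ha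
          by_contra hc
          exact (h2 x a.1 b a.2 (Ne.symm hc) hx).1 ha
        have hv : ∀ a ∈ v.toWord, a.1 = x := by
          intro a ha
          by_contra hc
          exact (h2 x a.1 b a.2 (Ne.symm hc) hx).2 ha
        have e1 := one_letter x _ hu
        have e2 := one_letter x _ hv
        rw [FreeGroup.mk_toWord] at e1 e2
        rw [e1, e2, he x]
      · push Not at h3
        have hu : u.toWord = [] := by
          rw [List.eq_nil_iff_forall_not_mem]
          exact fun a => (h3 a.1 a.2).1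
        have hv : v.toWord = [] := by
          rw [List.eq_nil_iff_forall_not_mem]
          exact fun a => (h3 a.1 a.2).2
        exact FreeGroup.toWord_injective (hu.trans hv.symm)

end choice

open scoped Classical in
theorem main_aux (n : ℕ) : ∀ (X : Type u) (u v : FreeGroup X), u.norm + v.norm < n →
    ¬ IsConj u v → ∃ (Q : Type) (_ : Group Q) (_ : Finite Q) (ψ : FreeGroup X →* Q),
      ¬ IsConj (ψ u) (ψ v) := by
  induction n with
  | zero => intro X u v h; omega
  | succ n ih =>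
    -- the step when the letter occurs in the first word
    have step1 : ∀ (X : Type u) (u v : FreeGroup X), u.norm + v.norm < n + 1 → ¬ IsConj u v →
        ∀ (m : ℕ) (_ : Fact (1 < m)) (x0 : X) (φ : X → C m) (b : Bool),
        φ x0 = Multiplicative.ofAdd 1 → FreeGroup.lift φ u = 1 → FreeGroup.lift φ v = 1 →
        (x0, b) ∈ u.toWord → ∃ (Q : Type) (_ : Group Q) (_ : Finite Q) (ψ : FreeGroup X →* Q),
          ¬ IsConj (ψ u) (ψ v) := by
      intro X u v hn hc m hm x0 φ b hx0 hu hv hb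
      obtain ⟨i0, hi0⟩ := exists_lt x0 φ hx0 u.toWord b hb
      rw [FreeGroup.mk_toWord] at hi0
      refine step x0 φ hu hv i0 fun j => ?_
      have h2 := norm_le x0 φ v.toWord j
      rw [FreeGroup.mk_toWord] at h2
      change _ < u.norm at hi0
      change _ ≤ v.norm at h2
      refine ih _ _ _ ?_ (fun h => hc (conj_of x0 φ hx0 hu hv h))
      have h3 : ((Phi x0 φ u).left i0).norm + ((Phi x0 φ v).left j).norm < n := by omega
      convert h3
    intro X u v hn hc
    by_cases he : ∀ x, ex x u = ex x v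
    · obtain ⟨m, hm, x0, φ, b, hx0, hu, hv, hb⟩ :=
        choice u v he (fun h => hc (h ▸ IsConj.refl u))
      rcases hb with hb | hb
      · exact step1 X u v hn hc m hm x0 φ b hx0 hu hv hb
      · obtain ⟨Q, iQ, fQ, ψ, hψ⟩ := step1 X v u (by omega) (fun h => hc h.symm)
          m hm x0 φ b hx0 hv hu hb
        exact ⟨Q, iQ, fQ, ψ, fun h => hψ h.symm⟩
    · push Not at he
      obtain ⟨x, hx⟩ := he
      exact sep_ex x u v hx

/-- Free groups are conjugacy separable. -/
theorem free_conj_sep {X : Type u} (u v : FreeGroup X) (h : ¬ IsConj u v) :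
    ∃ (Q : Type) (_ : Group Q) (_ : Finite Q) (ψ : FreeGroup X →* Q),
      ¬ IsConj (ψ u) (ψ v) := by
  classical
  exact main_aux _ X u v (Nat.lt_succ_self _) h

end Pool.Agent.H62FC
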